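import Pool.Agent.Lib.GC.Level

/-!
Determinant lines of Jacobians of general Galois covers, and the general Hodge conjecture.

`F` is a totally real number field, `D` a totally positive element of the ring of integers,
`E = F(√-D)`, and `emb v` is the embedding of `E` over the real place `v` with `√-D ↦ i √(v D)`.
The `G s` are finite groups, acting on curves `C s`, and `g s` is the list of the branch monodromies
of `C s → C s / G s`.  For characters `χ s` of the `G s` over `E` and a multiset `T` of CM types of
`E`, the number `sig g (emb v) χ + sigCM v T` is `p - q` for the Hodge type `(p, q)`, at the place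
`v`, of the line `⊗ det M_χ(s) ⊗ L_T` (formula of Chevalley and Weil).  `IsAlg v₁ D emb g` is the
least class of triples `(χ, L, T)` with the determinants of linear characters of subgroups (which are
Fermat lines), the Jacobi lines, the divisor classes and compact ball quotients in CM abelian
varieties, closed under products and contraction.  See `Pool.Agent.Lib.GC.Defs` and
`Pool.Agent.Lib.CMN.Defs`.
-/

set_option autoImplicit false

namespace Pool.Agent.Results.MP_386e47_ag.GaloisCoversLevel

open Pool.Agent Pool.Agent.GC

/-- The line of `(χ, T)` is algebraically isomorphic, up to a twist, to a product of `l` lines of CM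
type if and only if `|p - q| ≤ l` at all places (with the parity of `l`). -/
theorem result (F : Type) [Field F] [NumberField F] [NumberField.IsTotallyReal F]
    (v₁ : F →+* ℝ) (D : F) (hD : IsIntegral ℤ D) (hpos : ∀ v : F →+* ℝ, 0 < v D)
    (E : Type) [Field E] [Algebra F E] (δ : E) (hδ : δ ^ 2 = -algebraMap F E D)
    (hEF : ∀ x : E, ∃ a b : F, x = algebraMap F E a + algebraMap F E b * δ)
    (emb : (F →+* ℝ) → (E →+* ℂ)) (hemb : ∀ v x, emb v (algebraMap F E x) = (v x : ℂ))
    (hembδ : ∀ v, emb v δ = Complex.I * (√(v D) : ℂ))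
    (ι : Type) [Fintype ι] [DecidableEq ι] (G : ι → Type) [∀ s, Group (G s)]
    [∀ s, Fintype (G s)] (hζ : ∀ s, ∃ ζ : E, IsPrimitiveRoot ζ (Fintype.card (G s)))
    (g : ∀ s, List (G s)) (hg : ∀ s, (g s).prod ∈ commutator (G s))
    (χ : ∀ s, G s → E) (hχ : ∀ s, IsChar (χ s)) (T : Multiset (CMN.CMType F)) (l : ℕ) :
    (∃ m : Multiset (CMN.CMType F), m.card = l ∧ IsAlg v₁ D emb g χ 0 (T + m)) ↔
      ∀ v, ∃ n : ℤ, sig g (emb v) χ + sigCM v T = n ∧ |n| ≤ l ∧ Even ((l : ℤ) - n) :=
  level F v₁ D hD hpos E δ hδ hEF emb hemb hembδ ι G hζ g hg χ hχ T l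

end Pool.Agent.Results.MP_386e47_ag.GaloisCoversLevel
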