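import Pool.Agent.Lib.GG.Fin

/-!
The generalized Hodge conjecture for `A × B`, `A` of symplectic type or of `GL₂`-type, `B` of CM type.

`A = ℂ^P / ∑ ℤ b_i`, `P = Σ s, M s × G s`, `b` an `ℝ`-basis of `ℂ^P`; `B = ∏ i, ℂ^(Φ i) / Φ i (𝓞 (K i))`
for CM fields `K i` with CM types `Φ i`. A class in `H_m(A × B, ℂ)` is given by its pairings with the
products of the constant one-forms (letters), that is by a function of words. See
`Pool.Agent.Lib.GG.Stat` for the definitions. In both cases `A` is an abelian variety, because a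
positive combination of the invariants `ps` can be approximated by rational ones.
-/

set_option autoImplicit false

open Pool.Agent.HCM Pool.Agent.GG

namespace Pool.Agent.Results.MP_386e47_ag.GeneralizedHodge

/-- Assume that the complexified Hodge Lie algebra of `A` is `⨁ₛ 𝔰𝔭(V_s) ⊗ 1`, where
`H_1(A, ℂ) = ⨁ₛ V_s ⊗ ℂ^(M s)`, or that `End(A) ⊗ ℝ = ∏ₛ M_(m_s)(ℝ)` with `∑ m_s = dim A` (for
example elliptic curves without CM, real multiplication of degree `dim A`, totally indefinite
quaternionic multiplication of degree `2 dim A`, and products of these). Let `R` be a rational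
sub-Hodge structure of `H_(2k+l)(A × B, ℚ)` of coniveau `k` (its Hodge types are `(p, q)` with
`p, q ≥ k`). Then every `u ∈ R` is a `ℚ`-linear combination of Pontryagin products of `j` classes in
`H_2(A, ℚ)` of type `(1,1)`, of `a` loops in `A` and of a class of degree `2c + l'` on `B` which comes
from the classes of maps from compact arithmetic quotients of the `(c + l')`-ball to products of tori
of CM type, with `j + c = k` and `a + l' = l`. So `R` comes from an algebraic subset of `A × B` of
dimension `k + l`. -/
theorem result (k l : ℕ) (S Λ : Type) [Fintype S] [Fintype Λ] (M G : S → Type)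
    [∀ s, Fintype (M s)] [∀ s, Fintype (G s)]
    (b : Module.Basis Λ ℝ (Crd M G → ℂ)) (ι : Type) [Finite ι] (K : ι → Type)
    [∀ i, Field (K i)] [∀ i, NumberField (K i)] [∀ i, NumberField.IsCMField (K i)]
    (Φ : ∀ i, Set (K i →+* ℂ)) (hΦ : ∀ i, IsCMType (Φ i)) (hA : IsSymp b ∨ IsGL2 b)
    (R : Submodule ℚ ((Fin (2 * k + l) → Lt M G K) → ℂ)) (hR : IsSub b Φ R)
    (hk : IsCon k l Φ R) :
    ∀ u ∈ R, u ∈ Submodule.span ℚ {w | IsProd b Φ k l w} :=
  ghx k l S Λ M G b ι K Φ hΦ hA R hR hk

end Pool.Agent.Results.MP_386e47_ag.GeneralizedHodge
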