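import Pool.Agent.Lib.U2N.Fin
import Pool.Agent.Lib.U2N.Short

/-!
# The generalized Hodge conjecture for powers of products of nearly balanced factors

`K k`, `k : κ`, are finitely many CM fields and `X = ∏ k, A k × B`.  `A k` is an abelian variety with
`H_1(A k, ℚ) = (K k)^(n k)` and the form `∑ g, a k g * x g * conj (y g)` with values in `K k`
(`IsDat`).  If `s k` is true, the `a k g` are purely imaginary, and `A k` has multiplication by the
maximal real subfield of `K k` and the symplectic form `Tr` of this form.  If `s k` is false, the
`a k g` are real, the form is hermitian, and `A k` has multiplication by `K k`; the signature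
`(p, q)` of the form is nearly balanced, `|p - q| ≤ 1`, at every embedding of `K k`.  `B` is an
abelian variety of CM type, the product of tori over the fields `K k`: one of them, `E k`, for every
`k`, and others, indexed by `J k`; for odd `n k` the CM type of `E k` is the one of the determinant
of `H_1(A k)`.  `Φ` gives the letters of type `(1,0)` (`isT`).

`R` is a rational sub-Hodge structure of `H_1(X, ℚ)^{⊗ m}`, the Künneth component of `H_m(X^m, ℚ)`,
of coniveau `c`, stable under the Lie algebra of the symplectic and special unitary groups of the
forms (`IsSubS`).  `GenS`: the classes of coniveau `c` which are built from CM abelian varieties.  They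
come from algebraic subsets of dimension `m - c` if the `K`-determinants `dN` are algebraic; this is
elementary for `n k ≤ 2` and due to Markman for imaginary quadratic `K k` and `n k ≤ 5`.  See
`Pool.Agent.Lib.U21.ShortA`, `Pool.Agent.Lib.U2N.Short`, `Pool.Agent.Lib.U2N.Stat`,
`Pool.Agent.Lib.U21.Stat`, `Pool.Agent.Lib.U21.StatB` and `Pool.Agent.Lib.GG.Stat` for the
definitions.
-/

set_option autoImplicit false

open Pool.Agent.U21 Pool.Agent.U2N

namespace Pool.Agent.Results.MP_386e47_ag.SmallFactors

/-- Let `R` be a rational sub-Hodge structure of `H_1(X, ℚ)^{⊗ m}` of coniveau `c`, stable under the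
Lie algebra of the symplectic and special unitary groups of the forms. Then every `u ∈ R` is a
`ℚ`-linear combination of classes which are obtained, with coniveau `c`, from products of loops and of
classes of maps from compact arithmetic ball quotients to CM abelian varieties by products with
classes of type `(1,1)`, by the `K`-determinants of the hermitian forms, and by permutations of the
factors. -/
theorem result (κ : Type) [Finite κ] (K : κ → Type) [∀ k, Field (K k)] [∀ k, NumberField (K k)]
    [∀ k, NumberField.IsCMField (K k)] (n : κ → ℕ) (J : κ → Type) [∀ k, Finite (J k)]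
    (Φ : Ty K n J) (a : ∀ k, Fin (n k) → K k) (s : κ → Bool) (hD : Pool.Agent.U2N.IsDat Φ a s)
    (m c : ℕ) (R : Submodule ℚ ((Fin m → Lt K n J) → ℂ)) (hR : IsSubS Φ a s c R) :
    ∀ u ∈ R, u ∈ Submodule.span ℚ {f | GenS Φ a s c (Fin m) f} :=
  fun u hu => short ghn κ K n J Φ a s hD (Fin m) c R hR u hu

end Pool.Agent.Results.MP_386e47_ag.SmallFactors
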