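import Pool.Agent.Lib.SPY.F2

/-! Special cycles are generated by intersections of special divisors: the modular core. -/

namespace Pool.Agent.Results.MP_386e47_ag.SpecialCycles

open Complex Finset

variable {ι : Type*} [Fintype ι] [DecidableEq ι]

lemma psd_fin (t : ι → ℤ) : Set.Finite {B : Bd t | B.1.IsSymm ∧
    ∀ x : ι → ℤ, 0 ≤ x ⬝ᵥ (B.1.mulVec x)} := by
  set K : ℤ := ∑ j, |t j| with hK
  have hKj : ∀ j, |t j| ≤ K := fun j ↦
    single_le_sum (f := fun j ↦ |t j|) (fun _ _ ↦ abs_nonneg _) (mem_univ j)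
  have hK0 : 0 ≤ K := sum_nonneg fun _ _ ↦ abs_nonneg _
  have hfin : Set.Finite (Set.Icc (fun _ _ ↦ -K : ι → ι → ℤ) (fun _ _ ↦ K)) := Set.finite_Icc _ _
  have hinj : Function.Injective (fun B : Bd t ↦ (B.1 : ι → ι → ℤ)) := fun B C hBC ↦
    Subtype.ext hBC
  refine (hfin.preimage hinj.injOn).subset fun B hB ↦ ?_
  obtain ⟨hs, hp⟩ := hB
  have hbd : ∀ j l, |B.1 j l| ≤ K := by
    intro j l
    have h1 := psd_sq hs hp j l
    rw [B.2 j, B.2 l] at h1
    have h2 := (le_abs_self (t j)).trans (hKj j)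
    have h3 := (le_abs_self (t l)).trans (hKj l)
    have h4 := psd_diag hs hp l
    rw [B.2 l] at h4
    have h5 : t j * t l ≤ K * K := mul_le_mul h2 h3 h4 hK0
    exact abs_le_of_sq_le_sq (by nlinarith) hK0
  simp only [Set.mem_preimage]
  exact ⟨fun j l ↦ (abs_le.mp (hbd j l)).1, fun j l ↦ (abs_le.mp (hbd j l)).2⟩

/-- **Theorem.** Let `W` be a vector space over `ℚ` and `Z(B, μ)` a family in `W` such that for
every linear functional `f` the family `f(Z(B, μ))` is a formal Siegel modular form of degree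
`g = card ι` and weight `k` with values in `ℂ^D`. Assume `ν ≥ 1` and `k ≤ 9 / 2` (`k < 5` if
`g ≤ 3`), or, with `x = B i i / N`, that `k < 12 x - (g - 1) ⌊2x⌋` for all diagonal values `x` of
the support with `2 ν ≤ g (g - 1) ⌊2x⌋`. Then every `Z(B, μ)` lies in the span of the moments of
order `< ν`; the moments of order `0` are needed only for the diagonals `t` with all
`t i / N ≤ k / 12`. -/
theorem result [Nonempty ι] {D : Type*} [Fintype D] {W : Type*} [AddCommGroup W] [Module ℚ W]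
    (N : ℕ) (hN : 0 < N) (k : ℝ) (ν : ℕ) (Z : Matrix ι ι ℤ → D → W)
    (hZ : ∀ f : W →ₗ[ℚ] ℂ,
      IsSiegel N k (fun B ↦ (WithLp.toLp 2 fun μ ↦ f (Z B μ) : EuclideanSpace ℂ D)))
    (hk : ((k ≤ 9 / 2 ∨ (Fintype.card ι ≤ 3 ∧ k < 5)) ∧ 1 ≤ ν) ∨
      ∀ (B : Matrix ι ι ℤ) (μ : D) (i : ι), Z B μ ≠ 0 →
      2 * ν ≤ Fintype.card ι * (Fintype.card ι - 1) * ⌊2 * (B i i : ℝ) / N⌋₊ →
      k < 12 * (B i i : ℝ) / N - (Fintype.card ι - 1) * ⌊2 * (B i i : ℝ) / N⌋₊)
    (B : Matrix ι ι ℤ) (μ : D) :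
    Z B μ ∈ Submodule.span ℚ {w : W | ∃ (es : List (ι × ι)) (t : ι → ℤ) (δ : D),
      (∀ p ∈ es, p.1 ≠ p.2) ∧ es.length < ν ∧ (es = [] → ∀ i, 12 * (t i : ℝ) ≤ k * N) ∧
      w = ∑ᶠ B : {B : Matrix ι ι ℤ // ∀ j, B j j = t j},
        (es.map fun p ↦ B.1 p.1 p.2).prod • Z B.1 δ} := by
  classical
  set U := Submodule.span ℚ {w : W | ∃ (es : List (ι × ι)) (t : ι → ℤ) (δ : D),
      (∀ p ∈ es, p.1 ≠ p.2) ∧ es.length < ν ∧ (es = [] → ∀ i, 12 * (t i : ℝ) ≤ k * N) ∧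
      w = ∑ᶠ B : {B : Matrix ι ι ℤ // ∀ j, B j j = t j},
        (es.map fun p ↦ B.1 p.1 p.2).prod • Z B.1 δ} with hU
  -- functionals separate points
  have hsepU : ∀ (U : Submodule ℚ W) (w : W), w ∉ U → ∃ f : W →ₗ[ℚ] ℂ, f w ≠ 0 ∧
      ∀ u ∈ U, f u = 0 := by
    intro U w hw
    obtain ⟨f, hf1, hf2⟩ := Submodule.exists_le_ker_of_notMem (p := U) hw
    refine ⟨(Algebra.linearMap ℚ ℂ).comp f, ?_, ?_⟩
    · simpa using hf1
    · intro u hu
      have : f u = 0 := hf2 hu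
      simp [this]
  by_contra hmem
  obtain ⟨f, hf1, hf2⟩ := hsepU U (Z B μ) hmem
  set a : Matrix ι ι ℤ → EuclideanSpace ℂ D := fun B ↦ WithLp.toLp 2 fun μ ↦ f (Z B μ) with ha
  have haS : IsSiegel N k a := hZ f
  -- support of `Z`
  have hsupp : ∀ (B : Matrix ι ι ℤ) (δ : D), Z B δ ≠ 0 → B.IsSymm ∧
      ∀ x : ι → ℤ, 0 ≤ x ⬝ᵥ (B.mulVec x) := by
    intro B δ hne
    obtain ⟨f', h1, -⟩ := hsepU ⊥ (Z B δ) (by simpa using hne)
    have h2 : (WithLp.toLp 2 fun μ ↦ f' (Z B μ) : EuclideanSpace ℂ D) ≠ 0 := by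
      intro h3
      have h4 := congrArg (fun v : EuclideanSpace ℂ D ↦ v δ) h3
      exact h1 (by simpa using h4)
    exact ⟨(hZ f').symm _ h2, (hZ f').psd _ h2⟩
  have hvan0 : ∀ (es : List (ι × ι)) (t : ι → ℤ), (∀ p ∈ es, p.1 ≠ p.2) → es.length < ν →
      (es = [] → ∀ i, 12 * (t i : ℝ) ≤ k * N) → Mom a es t = 0 := by
    intro es t hes hlen hsm
    set F := (psd_fin t).toFinset with hF
    have hFm : ∀ (C : Bd t) (δ : D), Z C.1 δ ≠ 0 → C ∈ F := by
      intro C δ hne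
      rw [hF, Set.Finite.mem_toFinset]
      exact hsupp C.1 δ hne
    have h1 : Mom a es t = ∑ C ∈ F, (es.map fun p ↦ ((C.1 p.1 p.2 : ℤ) : ℂ)).prod • a C.1 := by
      unfold Mom
      refine tsum_eq_sum fun C hC ↦ ?_
      have : a C.1 = 0 := by
        by_contra hne
        apply hC
        rw [hF, Set.Finite.mem_toFinset]
        exact ⟨haS.symm _ hne, haS.psd _ hne⟩
      rw [this, smul_zero]
    rw [h1]
    ext δ
    have h2 : (∑ᶠ C : Bd t, (es.map fun p ↦ C.1 p.1 p.2).prod • Z C.1 δ) ∈ U :=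
      Submodule.subset_span ⟨es, t, δ, hes, hlen, hsm, rfl⟩
    have h3 := hf2 _ h2
    have h4 : (∑ᶠ C : Bd t, (es.map fun p ↦ C.1 p.1 p.2).prod • Z C.1 δ) =
        ∑ C ∈ F, (es.map fun p ↦ C.1 p.1 p.2).prod • Z C.1 δ := by
      apply finsum_eq_sum_of_support_subset
      intro C hC
      rw [Function.mem_support] at hC
      have : Z C.1 δ ≠ 0 := fun h0 ↦ hC (by rw [h0, smul_zero])
      exact hFm C δ this
    rw [h4, map_sum] at h3
    have h5 : ∀ C : Bd t, f ((es.map fun p ↦ C.1 p.1 p.2).prod • Z C.1 δ) =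
        (es.map fun p ↦ ((C.1 p.1 p.2 : ℤ) : ℂ)).prod * f (Z C.1 δ) := by
      intro C
      rw [map_zsmul, zsmul_eq_mul]
      congr 1
      push_cast
      rw [List.map_map]
      rfl
    simp only [h5] at h3
    simpa [ha] using h3
  have h6 : ∀ B, a B = 0 := by
    rcases hk with ⟨hk, hν⟩ | hk
    · exact mainY hN hk haS (fun t ht ↦ hvan0 [] t (by simp) (by rw [List.length_nil]; omega) fun _ ↦ ht)
    · have hvan : Van a ν := by
        intro es hes hlen t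
        rcases eq_or_ne es [] with rfl | hne
        · exact small_diag hN haS (fun t ht ↦ hvan0 [] t hes hlen fun _ ↦ ht) t
        · exact hvan0 es t hes hlen fun h0 ↦ absurd h0 hne
      exact mainG hN haS hvan (fun B i hB hc ↦ by
        obtain ⟨δ, hδ⟩ : ∃ δ, Z B δ ≠ 0 := by
          by_contra hcon
          push Not at hcon
          apply hB
          ext δ
          simp [ha, hcon δ]
        exact hk B δ i hδ hc)
  apply hf1
  have h7 := congrArg (fun v : EuclideanSpace ℂ D ↦ v μ) (h6 B)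
  simpa [ha] using h7

end Pool.Agent.Results.MP_386e47_ag.SpecialCycles
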